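import Pool.Agent.H45.VT.Shear

/-!
# Closed subsets of the torus which are invariant under affine maps with linear parts -1 and two shears
-/

open Set Filter Topology

set_option linter.unusedSimpArgs false

namespace Pool.Agent.H45.VT

theorem torsion_finite {N : ℕ} (hN : 1 ≤ N) : {u : UnitAddCircle | N • u = 0}.Finite :=
  AddCircle.finite_torsion 1 (by omega)

theorem torsion_finite_prod {N : ℕ} (hN : 1 ≤ N) :
    {z : UnitAddCircle × UnitAddCircle | N • z = 0}.Finite := by
  refine ((torsion_finite hN).prod (torsion_finite hN)).subset ?_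
  intro z hz
  have h : N • z = 0 := hz
  exact ⟨congrArg Prod.fst h, congrArg Prod.snd h⟩

/-- The stabiliser of a set. -/
def stab (C : Set (UnitAddCircle × UnitAddCircle)) : Set (UnitAddCircle × UnitAddCircle) :=
  {t | ∀ z ∈ C, z + t ∈ C ∧ z - t ∈ C}

theorem stab_closed {C : Set (UnitAddCircle × UnitAddCircle)} (hC : IsClosed C) :
    IsClosed (stab C) := by
  have : stab C = ⋂ z ∈ C, ({t | z + t ∈ C} ∩ {t | z - t ∈ C}) := by
    ext t
    simp [stab]
  rw [this]
  refine isClosed_biInter fun z _ => IsClosed.inter ?_ ?_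
  · exact hC.preimage (by fun_prop : Continuous fun t => z + t)
  · exact hC.preimage (by fun_prop : Continuous fun t => z - t)

theorem iter_affine {C : Set (UnitAddCircle × UnitAddCircle)} {a : ℕ} {v : UnitAddCircle × UnitAddCircle}
    (h1 : ∀ z ∈ C, (z.1 + a • z.2, z.2) + v ∈ C) {z : UnitAddCircle × UnitAddCircle} (hz : z ∈ C) (n : ℕ) :
    (z.1 + (n * a) • z.2 + n • v.1 + (a * n.choose 2) • v.2, z.2 + n • v.2) ∈ C := by
  induction n with
  | zero => simpa using hz
  | succ n ih =>
    have h := h1 _ ih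
    have e : (n + 1).choose 2 = n + n.choose 2 := by
      rw [Nat.choose_succ_succ' n 1, Nat.choose_one_right]
    rw [e]
    convert h using 1
    ext
    · simp only [Prod.fst_add, smul_add, smul_smul]
      rw [Nat.succ_mul, Nat.mul_add]
      simp only [add_smul, one_smul]
      abel
    · simp only [Prod.snd_add, add_smul, one_smul]
      abel

theorem fst_nsmul (n : ℕ) (z : UnitAddCircle × UnitAddCircle) : (n • z).1 = n • z.1 := rfl

theorem snd_nsmul (n : ℕ) (z : UnitAddCircle × UnitAddCircle) : (n • z).2 = n • z.2 := rfl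

/-- Some power of the first affine map is linear. -/
theorem pow_fst {C : Set (UnitAddCircle × UnitAddCircle)} {a N : ℕ} {v : UnitAddCircle × UnitAddCircle}
    (h1 : ∀ z ∈ C, (z.1 + a • z.2, z.2) + v ∈ C) (hN : N • v = 0) :
    ∀ z ∈ C, (z.1 + (2 * N * a) • z.2, z.2) ∈ C := by
  intro z hz
  have h := iter_affine h1 hz (2 * N)
  have e1 : N • v.1 = 0 := congrArg Prod.fst hN
  have e2 : N • v.2 = 0 := congrArg Prod.snd hN
  have e3 : (2 * N) • v.1 = 0 := by rw [mul_smul, e1, smul_zero]
  have e4 : (2 * N) • v.2 = 0 := by rw [mul_smul, e2, smul_zero]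
  have e5 : (2 * N).choose 2 = N * (2 * N - 1) := by
    rw [Nat.choose_two_right]
    have : 2 * N * (2 * N - 1) = 2 * (N * (2 * N - 1)) := by ring
    rw [this, Nat.mul_div_cancel_left _ (by norm_num)]
  have e6 : (a * (2 * N).choose 2) • v.2 = 0 := by
    rw [e5, show a * (N * (2 * N - 1)) = (a * (2 * N - 1)) * N by ring, mul_smul, e2, smul_zero]
  rw [e3, e4, e6, add_zero, add_zero, add_zero] at h
  exact h

/-- The case in which the first map is `-1`. -/
theorem affine_zero {a b : ℕ} (ha : 1 ≤ a) (hb : 1 ≤ b) {v1 v2 : UnitAddCircle × UnitAddCircle}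
    {C : Set (UnitAddCircle × UnitAddCircle)} (hC : IsClosed C) (h0 : ∀ z ∈ C, -z ∈ C)
    (h1 : ∀ z, z ∈ C ↔ (z.1 + a • z.2, z.2) + v1 ∈ C)
    (h2 : ∀ z, z ∈ C ↔ (z.1, z.2 + b • z.1) + v2 ∈ C) :
    C = ∅ ∨ C = univ ∨ ∃ N : ℕ, 1 ≤ N ∧ ∀ z ∈ C, N • z = 0 := by
  -- the inverse maps
  have i1 : ∀ u ∈ C, ((u - v1).1 - a • (u - v1).2, (u - v1).2) ∈ C := by
    intro u hu
    rw [h1]
    convert hu using 1
    ext
    · simp
    · simp
  have i2 : ∀ u ∈ C, ((u - v2).1, (u - v2).2 - b • (u - v2).1) ∈ C := by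
    intro u hu
    rw [h2]
    convert hu using 1
    ext
    · simp
    · simp
  have hst := stab_closed hC
  have hneg : ∀ t ∈ stab C, -t ∈ stab C := by
    intro t ht z hz
    have := ht z hz
    refine ⟨by rw [← sub_eq_add_neg]; exact this.2, by rw [sub_neg_eq_add]; exact this.1⟩
  have s1' : ∀ t ∈ stab C, ∀ z ∈ C, z + (t.1 + a • t.2, t.2) ∈ C := by
    intro t ht z hz
    have h3 := (ht _ (i1 z hz)).1
    rw [h1] at h3
    convert h3 using 1
    ext
    · simp only [Prod.fst_add, Prod.snd_add, Prod.fst_sub, Prod.snd_sub, smul_add]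
      abel
    · simp only [Prod.fst_add, Prod.snd_add, Prod.fst_sub, Prod.snd_sub, smul_add]
      abel
  have s2' : ∀ t ∈ stab C, ∀ z ∈ C, z + (t.1, t.2 + b • t.1) ∈ C := by
    intro t ht z hz
    have h3 := (ht _ (i2 z hz)).1
    rw [h2] at h3
    convert h3 using 1
    ext
    · simp only [Prod.fst_add, Prod.snd_add, Prod.fst_sub, Prod.snd_sub, smul_add]
      abel
    · simp only [Prod.fst_add, Prod.snd_add, Prod.fst_sub, Prod.snd_sub, smul_add]
      abel
  have s1 : ∀ t ∈ stab C, (t.1 + a • t.2, t.2) ∈ stab C := by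
    intro t ht z hz
    refine ⟨s1' t ht z hz, ?_⟩
    have := s1' _ (hneg t ht) z hz
    convert this using 1
    ext
    · simp only [Prod.fst_add, Prod.snd_add, Prod.fst_sub, Prod.snd_sub, Prod.fst_neg, Prod.snd_neg,
        smul_neg]
      abel
    · simp only [Prod.fst_add, Prod.snd_add, Prod.fst_sub, Prod.snd_sub, Prod.fst_neg, Prod.snd_neg]
      abel
  have s2 : ∀ t ∈ stab C, (t.1, t.2 + b • t.1) ∈ stab C := by
    intro t ht z hz
    refine ⟨s2' t ht z hz, ?_⟩
    have := s2' _ (hneg t ht) z hz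
    convert this using 1
    ext
    · simp only [Prod.fst_add, Prod.snd_add, Prod.fst_sub, Prod.snd_sub, Prod.fst_neg, Prod.snd_neg]
      abel
    · simp only [Prod.fst_add, Prod.snd_add, Prod.fst_sub, Prod.snd_sub, Prod.fst_neg, Prod.snd_neg,
        smul_neg]
      abel
  rcases shear_closed ha hb hst s1 s2 with hK | ⟨m, hm, hK⟩
  · rcases C.eq_empty_or_nonempty with h | ⟨z0, hz0⟩
    · exact Or.inl h
    · refine Or.inr (Or.inl (eq_univ_iff_forall.2 fun z => ?_))
      have ht : z - z0 ∈ stab C := by rw [hK]; trivial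
      have := (ht z0 hz0).1
      rwa [add_sub_cancel] at this
  · refine Or.inr ?_
    have k1 : ∀ u ∈ C, u - (2 : ℕ) • v1 ∈ C := by
      intro u hu
      have h3 := (h1 _).1 (h0 _ (i1 u hu))
      have h4 := h0 _ h3
      convert h4 using 1
      ext
      · simp only [Prod.fst_add, Prod.snd_add, Prod.fst_sub, Prod.snd_sub, Prod.fst_neg, Prod.snd_neg,
          fst_nsmul, smul_neg, smul_sub, two_nsmul]
        abel
      · simp only [Prod.fst_add, Prod.snd_add, Prod.fst_sub, Prod.snd_sub, Prod.fst_neg, Prod.snd_neg,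
          snd_nsmul, two_nsmul]
        abel
    have k2 : ∀ u ∈ C, u - (2 : ℕ) • v2 ∈ C := by
      intro u hu
      have h3 := (h2 _).1 (h0 _ (i2 u hu))
      have h4 := h0 _ h3
      convert h4 using 1
      ext
      · simp only [Prod.fst_add, Prod.snd_add, Prod.fst_sub, Prod.snd_sub, Prod.fst_neg, Prod.snd_neg,
          fst_nsmul, two_nsmul]
        abel
      · simp only [Prod.fst_add, Prod.snd_add, Prod.fst_sub, Prod.snd_sub, Prod.fst_neg, Prod.snd_neg,
          snd_nsmul, smul_neg, smul_sub, two_nsmul]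
        abel
    have m1 : (2 : ℕ) • v1 ∈ stab C := by
      intro z hz
      refine ⟨?_, k1 z hz⟩
      have := h0 _ (k1 _ (h0 z hz))
      convert this using 1
      abel
    have m2 : (2 : ℕ) • v2 ∈ stab C := by
      intro z hz
      refine ⟨?_, k2 z hz⟩
      have := h0 _ (k2 _ (h0 z hz))
      convert this using 1
      abel
    have n1 : (m * 2) • v1 = 0 := by rw [mul_smul]; exact hK _ m1
    have n2 : (m * 2) • v2 = 0 := by rw [mul_smul]; exact hK _ m2
    have p1 := pow_fst (fun z hz => (h1 z).1 hz) n1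
    have p2 : ∀ z ∈ C, (z.1, z.2 + (2 * (m * 2) * b) • z.1) ∈ C := by
      have := pow_fst (C := Prod.swap ⁻¹' C) (a := b) (v := v2.swap)
        (fun z hz => (h2 z.swap).1 hz) (N := m * 2) (by
          ext
          · exact congrArg Prod.snd n2
          · exact congrArg Prod.fst n2)
      intro z hz
      exact this z.swap (by simpa using hz)
    have hm2 : 0 < m := hm
    exact shear_closed (Nat.mul_pos (by omega) (by omega)) (Nat.mul_pos (by omega) (by omega))
      hC p1 p2

/-- A closed subset of the torus which is invariant under affine maps with linear parts `-1` and two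
shears is empty, everything or finite and contained in one translate of the torsion points. -/
theorem affine_closed {a b : ℕ} (ha : 1 ≤ a) (hb : 1 ≤ b) {v0 v1 v2 w : UnitAddCircle × UnitAddCircle}
    (hw : w + w = v0) {C : Set (UnitAddCircle × UnitAddCircle)} (hC : IsClosed C)
    (h0 : ∀ z ∈ C, -z + v0 ∈ C)
    (h1 : ∀ z, z ∈ C ↔ (z.1 + a • z.2, z.2) + v1 ∈ C)
    (h2 : ∀ z, z ∈ C ↔ (z.1, z.2 + b • z.1) + v2 ∈ C) :
    C = ∅ ∨ C = univ ∨ (C.Finite ∧ ∃ N : ℕ, 1 ≤ N ∧ ∀ z ∈ C, N • (z - w) = 0) := by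
  have hC' : IsClosed {z | z + w ∈ C} :=
    hC.preimage (by fun_prop : Continuous fun z => z + w)
  rcases affine_zero (C := {z | z + w ∈ C}) ha hb
    (v1 := (w.1 + a • w.2, w.2) + v1 - w) (v2 := (w.1, w.2 + b • w.1) + v2 - w) hC'
    (fun z hz => by
      have := h0 _ hz
      change -z + w ∈ C
      convert this using 1
      rw [← hw]
      abel)
    (fun z => by
      change z + w ∈ C ↔ _
      rw [h1]
      change _ ↔ (z.1 + a • z.2, z.2) + ((w.1 + a • w.2, w.2) + v1 - w) + w ∈ C
      rw [iff_iff_eq]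
      congr 1
      ext
      · simp only [Prod.fst_add, Prod.snd_add, Prod.fst_sub, Prod.snd_sub, smul_add]
        abel
      · simp only [Prod.fst_add, Prod.snd_add, Prod.fst_sub, Prod.snd_sub]
        abel)
    (fun z => by
      change z + w ∈ C ↔ _
      rw [h2]
      change _ ↔ (z.1, z.2 + b • z.1) + ((w.1, w.2 + b • w.1) + v2 - w) + w ∈ C
      rw [iff_iff_eq]
      congr 1
      ext
      · simp only [Prod.fst_add, Prod.snd_add, Prod.fst_sub, Prod.snd_sub]
        abel
      · simp only [Prod.fst_add, Prod.snd_add, Prod.fst_sub, Prod.snd_sub, smul_add]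
        abel) with h | h | ⟨N, hN, h⟩
  · left
    rw [eq_empty_iff_forall_notMem] at h ⊢
    intro z hz
    apply h (z - w)
    change z - w + w ∈ C
    rwa [sub_add_cancel]
  · right; left
    rw [eq_univ_iff_forall] at h ⊢
    intro z
    have := h (z - w)
    change z - w + w ∈ C at this
    rwa [sub_add_cancel] at this
  · right; right
    have h' : ∀ z ∈ C, N • (z - w) = 0 := fun z hz => h (z - w) (by
      change z - w + w ∈ C
      rwa [sub_add_cancel])
    refine ⟨?_, N, hN, h'⟩
    refine ((torsion_finite_prod hN).image (fun z => z + w)).subset ?_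
    intro z hz
    exact ⟨z - w, h' z hz, sub_add_cancel z w⟩

/-- Every point of the torus can be halved. -/
theorem exists_half (v : UnitAddCircle × UnitAddCircle) : ∃ w, w + w = v := by
  have h : ∀ u : UnitAddCircle, ∃ w, w + w = u := by
    intro u
    induction u using QuotientAddGroup.induction_on with
    | H x =>
      refine ⟨((x / 2 : ℝ) : UnitAddCircle), ?_⟩
      change ((x / 2 : ℝ) : UnitAddCircle) + ((x / 2 : ℝ) : UnitAddCircle) = (x : UnitAddCircle)
      rw [← AddCircle.coe_add]
      congr 1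
      ring
  obtain ⟨w1, h1⟩ := h v.1
  obtain ⟨w2, h2⟩ := h v.2
  exact ⟨(w1, w2), Prod.ext h1 h2⟩

end Pool.Agent.H45.VT
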