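import Pool.Agent.H45.VT.Affine

/-!
# Minimality of the skew products `(x, y) ↦ (x + a y + v₁, y + v₂)`, `v₂` of infinite order
-/

open Set Filter Topology

namespace Pool.Agent.H45.VT

/-- The displacement of the first coordinate after `n` steps. -/
noncomputable def psi (a : ℕ) (v z : UnitAddCircle × UnitAddCircle) (n : ℕ) : UnitAddCircle :=
  (n * a) • z.2 + n • v.1 + (a * n.choose 2) • v.2

theorem psi_add (a : ℕ) (v z : UnitAddCircle × UnitAddCircle) (n k : ℕ) :
    psi a v z (n + k) = psi a v z n + psi a v z k + (a * n * k) • v.2 := by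
  have e : (n + k).choose 2 = n.choose 2 + k.choose 2 + n * k := by
    induction k with
    | zero => simp
    | succ k ih =>
      rw [← add_assoc, Nat.choose_succ_succ' (n + k) 1, Nat.choose_one_right, ih,
        Nat.choose_succ_succ' k 1, Nat.choose_one_right]
      ring
  unfold psi
  rw [e, show (n + k) * a = n * a + k * a by ring,
    show a * (n.choose 2 + k.choose 2 + n * k) = a * n.choose 2 + a * k.choose 2 + a * n * k by ring]
  simp only [add_smul]
  abel

/-- The limits of the displacement along the times of return of the second coordinate. -/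
def Ret (a : ℕ) (v z : UnitAddCircle × UnitAddCircle) : Set UnitAddCircle :=
  {t | ∀ δ : ℝ, 0 < δ → ∃ n : ℕ, ‖n • v.2‖ < δ ∧ ‖psi a v z n - t‖ < δ}

theorem ret_add {a : ℕ} {v z : UnitAddCircle × UnitAddCircle} {s t : UnitAddCircle}
    (hs : s ∈ Ret a v z) (ht : t ∈ Ret a v z) : s + t ∈ Ret a v z := by
  intro δ hδ
  obtain ⟨n, hn1, hn2⟩ := hs (δ / 4) (by linarith)
  obtain ⟨k, hk1, hk2⟩ := ht (δ / (4 * (a * n + 1))) (by positivity)
  have hpos : (1 : ℝ) ≤ (a : ℝ) * n + 1 := by
    have : (0 : ℝ) ≤ (a : ℝ) * n := by positivity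
    linarith
  have hk3 : δ / (4 * (a * n + 1)) ≤ δ / 4 := by
    apply div_le_div_of_nonneg_left hδ.le (by norm_num)
    linarith
  refine ⟨n + k, ?_, ?_⟩
  · rw [add_smul]
    refine (norm_add_le _ _).trans_lt ?_
    linarith
  · rw [psi_add]
    have e : psi a v z n + psi a v z k + (a * n * k) • v.2 - (s + t) =
        (psi a v z n - s) + (psi a v z k - t) + (a * n * k) • v.2 := by abel
    rw [e]
    have h3 : ‖(a * n * k) • v.2‖ ≤ δ / 4 := by
      rw [mul_smul]
      refine (norm_nsmul_le).trans ?_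
      have h4 : ((a * n : ℕ) : ℝ) * ‖k • v.2‖ ≤ ((a * n : ℕ) : ℝ) * (δ / (4 * (a * n + 1))) :=
        mul_le_mul_of_nonneg_left hk1.le (by positivity)
      refine h4.trans ?_
      push_cast
      rw [mul_div_assoc', div_le_div_iff₀ (by positivity) (by norm_num)]
      have : (0 : ℝ) ≤ (a : ℝ) * n := by positivity
      nlinarith
    calc ‖(psi a v z n - s) + (psi a v z k - t) + (a * n * k) • v.2‖
        ≤ ‖psi a v z n - s‖ + ‖psi a v z k - t‖ + ‖(a * n * k) • v.2‖ := norm_add₃_le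
      _ < δ := by linarith

theorem ret_nsmul {a : ℕ} {v z : UnitAddCircle × UnitAddCircle} {t : UnitAddCircle}
    (ht : t ∈ Ret a v z) (n : ℕ) : n • t ∈ Ret a v z := by
  induction n with
  | zero =>
    intro δ hδ
    exact ⟨0, by simpa using hδ, by simpa [psi] using hδ⟩
  | succ n ih =>
    rw [succ_nsmul]
    exact ret_add ih ht

theorem ret_univ {a : ℕ} {v z : UnitAddCircle × UnitAddCircle}
    (hun : ∀ M : ℕ, ∃ t ∈ Ret a v z, M.factorial • t ≠ 0) (u : UnitAddCircle) : u ∈ Ret a v z := by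
  intro δ hδ
  obtain ⟨m, hm⟩ := exists_nat_one_div_lt (show (0 : ℝ) < δ / 2 by linarith)
  obtain ⟨t, ht, hne⟩ := hun (1 * (m + 1))
  obtain ⟨n, hn⟩ := near le_rfl (by omega : 1 ≤ m + 1) hne u
  obtain ⟨k, hk1, hk2⟩ := ret_nsmul ht (n * 1) (δ / 2) (by linarith)
  refine ⟨k, by linarith, ?_⟩
  have e : psi a v z k - u = (psi a v z k - (n * 1) • t) - (u - (n * 1) • t) := by abel
  rw [e]
  refine (norm_sub_le _ _).trans_lt ?_
  have h1 : 1 / (((m + 1 : ℕ) : ℝ) + 1) ≤ 1 / ((m : ℝ) + 1) := by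
    apply one_div_le_one_div_of_le (by positivity)
    push_cast; linarith
  linarith

theorem small_of_bounded {a : ℕ} {v z : UnitAddCircle × UnitAddCircle} {m : ℕ}
    (hm : ∀ t ∈ Ret a v z, m • t = 0) :
    ∃ δ : ℝ, 0 < δ ∧ ∀ n : ℕ, ‖n • v.2‖ < δ → ‖m • psi a v z n‖ < 1 / 10 := by
  by_contra hcon
  push Not at hcon
  choose n hn1 hn2 using fun k : ℕ => hcon (1 / ((k : ℝ) + 1)) (by positivity)
  obtain ⟨t, -, φ, hφ, hlim⟩ := isCompact_univ.tendsto_subseq (x := fun k => psi a v z (n k))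
    (fun k => mem_univ _)
  have hsmall : Tendsto (fun k => ‖n (φ k) • v.2‖) atTop (𝓝 0) := by
    refine squeeze_zero (fun k => norm_nonneg _) (fun k => (hn1 (φ k)).le) ?_
    exact tendsto_one_div_add_atTop_nhds_zero_nat.comp hφ.tendsto_atTop
  have ht : t ∈ Ret a v z := by
    intro δ hδ
    have h1 : ∀ᶠ k in atTop, ‖n (φ k) • v.2‖ < δ := hsmall.eventually (gt_mem_nhds hδ)
    have h2 : ∀ᶠ k in atTop, ‖psi a v z (n (φ k)) - t‖ < δ := by
      have := tendsto_iff_norm_sub_tendsto_zero.1 hlim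
      exact this.eventually (gt_mem_nhds hδ)
    obtain ⟨k, hk1, hk2⟩ := (h1.and h2).exists
    exact ⟨_, hk1, hk2⟩
  have h0 := hm t ht
  have hlim2 : Tendsto (fun k => ‖m • psi a v z (n (φ k))‖) atTop (𝓝 ‖m • t‖) :=
    ((continuous_const_smul m).tendsto t |>.comp hlim).norm
  have h3 : (1 : ℝ) / 10 ≤ ‖m • t‖ :=
    ge_of_tendsto' hlim2 fun k => hn2 (φ k)
  rw [h0, norm_zero] at h3
  norm_num at h3

theorem unbounded {a : ℕ} (ha : 1 ≤ a) {v z : UnitAddCircle × UnitAddCircle}
    (hv : ∀ N : ℕ, 1 ≤ N → N • v.2 ≠ 0) (M : ℕ) : ∃ t ∈ Ret a v z, M.factorial • t ≠ 0 := by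
  by_contra hcon
  push Not at hcon
  set m := M.factorial with hm
  have hm1 : 1 ≤ m := Nat.factorial_pos M
  obtain ⟨δ, hδ, hsm⟩ := small_of_bounded hcon
  -- a large time of return
  obtain ⟨L, hL⟩ := exists_nat_gt (2 / δ)
  have hL1 : 1 ≤ L := by
    have h : (0 : ℝ) < L := lt_trans (by positivity) hL
    exact_mod_cast h
  obtain ⟨Q, hQ⟩ := exists_nat_gt (2 * L / δ)
  have hQ1 : 1 ≤ Q := by
    have h : (0 : ℝ) < Q := lt_trans (by positivity) hQ
    exact_mod_cast h
  obtain ⟨j, hj, hjQ⟩ := AddCircle.exists_norm_nsmul_le (T := (1 : ℝ)) v.2 hQ1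
  rw [Set.mem_Icc] at hj
  set k := L * j with hk
  have hkL : L ≤ k := by rw [hk]; nlinarith [hj.1]
  have hkn : ‖k • v.2‖ < δ / 2 := by
    rw [hk, mul_smul]
    refine (norm_nsmul_le).trans_lt ?_
    have h1 : (L : ℝ) * ‖j • v.2‖ ≤ L * (1 / ((Q : ℝ) + 1)) := by
      refine mul_le_mul_of_nonneg_left (hjQ.trans (le_of_eq ?_)) (Nat.cast_nonneg L)
      push_cast; ring
    refine h1.trans_lt ?_
    rw [mul_one_div, div_lt_div_iff₀ (by positivity) (by norm_num)]
    rw [div_lt_iff₀ hδ] at hQ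
    nlinarith
  -- the multiplier
  set c := m * a * k with hc
  have hc1 : 1 ≤ c := Nat.mul_pos (Nat.mul_pos hm1 ha) (by omega)
  have hcR : (0 : ℝ) < c := by exact_mod_cast hc1
  have hcL : (L : ℝ) ≤ c := by
    have : L ≤ c := hkL.trans (by rw [hc]; exact Nat.le_mul_of_pos_left _ (Nat.mul_pos hm1 ha))
    exact_mod_cast this
  have hcδ : 2 < c * δ := by
    rw [div_lt_iff₀ hδ] at hL
    nlinarith
  -- a time at which the second coordinate is near 1 / (2 c)
  set u0 : UnitAddCircle := ((1 / (2 * c) : ℝ) : UnitAddCircle) with hu0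
  have hu0n : ‖u0‖ ≤ δ / 4 := by
    refine (norm_coe_le _).trans ?_
    rw [abs_of_nonneg (by positivity), div_le_div_iff₀ (by positivity) (by norm_num)]
    nlinarith
  obtain ⟨q, hq⟩ := exists_nat_gt (max (4 / δ) (10 * (c : ℝ)))
  have hq1 : 4 / δ < q := (le_max_left _ _).trans_lt hq
  have hq2 : 10 * (c : ℝ) < q := (le_max_right _ _).trans_lt hq
  have hq0 : 1 ≤ q := by
    have h : (0 : ℝ) < q := lt_trans (by positivity) hq1
    exact_mod_cast h
  obtain ⟨n, hn⟩ := near (a := 1) le_rfl hq0 (hv _ (Nat.factorial_pos _)) u0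
  rw [mul_one] at hn
  have hqpos : (0 : ℝ) < (q : ℝ) + 1 := by positivity
  have e1 : 1 / ((q : ℝ) + 1) ≤ δ / 4 := by
    rw [div_lt_iff₀ hδ] at hq1
    rw [div_le_div_iff₀ hqpos (by norm_num)]
    nlinarith
  have e2 : (c : ℝ) * (1 / ((q : ℝ) + 1)) ≤ 1 / 10 := by
    rw [mul_one_div, div_le_div_iff₀ hqpos (by norm_num)]
    linarith
  have hnn : ‖n • v.2‖ < δ := by
    have : n • v.2 = u0 - (u0 - n • v.2) := by abel
    rw [this]
    refine (norm_sub_le _ _).trans_lt ?_
    linarith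
  have hnn2 : ‖n • v.2‖ ≤ δ / 2 := by
    have : n • v.2 = u0 - (u0 - n • v.2) := by abel
    rw [this]
    refine (norm_sub_le _ _).trans ?_
    linarith
  have hnk : ‖(n + k) • v.2‖ < δ := by
    rw [add_smul]
    refine (norm_add_le _ _).trans_lt ?_
    linarith
  have s1 := hsm n hnn
  have s2 := hsm k (by linarith)
  have s3 := hsm (n + k) hnk
  -- the cross term is small
  have hcross : ‖c • (n • v.2)‖ ≤ 3 / 10 := by
    have e : c • (n • v.2) = m • psi a v z (n + k) - m • psi a v z n - m • psi a v z k := by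
      rw [psi_add, smul_add, smul_add, smul_smul m, smul_smul c,
        show m * (a * n * k) = c * n by rw [hc]; ring]
      abel
    rw [e]
    refine (norm_sub_le _ _).trans ?_
    have := norm_sub_le (m • psi a v z (n + k)) (m • psi a v z n)
    linarith
  -- the cross term is near 1 / 2
  have hhalf : c • u0 = ((1 / 2 : ℝ) : UnitAddCircle) := by
    rw [hu0, ← AddCircle.coe_nsmul]
    congr 1
    rw [nsmul_eq_mul]
    field_simp
  have hnorm : ‖((1 / 2 : ℝ) : UnitAddCircle)‖ = 1 / 2 := by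
    have := AddCircle.norm_half_period_eq (p := (1 : ℝ))
    rw [this]; norm_num
  have hdiff : ‖c • u0 - c • (n • v.2)‖ ≤ 1 / 10 := by
    rw [← smul_sub]
    refine (norm_nsmul_le).trans ?_
    exact (mul_le_mul_of_nonneg_left hn hcR.le).trans e2
  have : ‖c • u0‖ ≤ ‖c • u0 - c • (n • v.2)‖ + ‖c • (n • v.2)‖ := by
    have := norm_add_le (c • u0 - c • (n • v.2)) (c • (n • v.2))
    rwa [sub_add_cancel] at this
  rw [hhalf, hnorm] at this
  rw [hhalf] at hdiff
  linarith

/-- A closed set invariant under a skew product over a rotation of infinite order is empty or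
everything. -/
theorem anzai {a : ℕ} (ha : 1 ≤ a) {v : UnitAddCircle × UnitAddCircle}
    (hv : ∀ N : ℕ, 1 ≤ N → N • v.2 ≠ 0) {C : Set (UnitAddCircle × UnitAddCircle)}
    (hC : IsClosed C) (h1 : ∀ z ∈ C, (z.1 + a • z.2, z.2) + v ∈ C) : C = ∅ ∨ C = univ := by
  rcases C.eq_empty_or_nonempty with h | ⟨z, hz⟩
  · exact Or.inl h
  right
  have hit : ∀ y ∈ C, ∀ n : ℕ, (y.1 + psi a v y n, y.2 + n • v.2) ∈ C := by
    intro y hy n
    have := iter_affine h1 hy n
    unfold psi
    convert this using 2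
    abel
  -- a whole circle
  have hcirc : ∀ u, (z.1 + u, z.2) ∈ C := by
    intro u
    have hu := ret_univ (unbounded (z := z) ha hv) u
    choose n hn1 hn2 using fun k : ℕ => hu (1 / ((k : ℝ) + 1)) (by positivity)
    have l1 : Tendsto (fun k => z.1 + psi a v z (n k)) atTop (𝓝 (z.1 + u)) := by
      refine tendsto_const_nhds.add ?_
      rw [tendsto_iff_norm_sub_tendsto_zero]
      exact squeeze_zero (fun k => norm_nonneg _) (fun k => (hn2 k).le)
        tendsto_one_div_add_atTop_nhds_zero_nat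
    have l2 : Tendsto (fun k => z.2 + n k • v.2) atTop (𝓝 z.2) := by
      have : Tendsto (fun k => n k • v.2) atTop (𝓝 0) := by
        rw [tendsto_zero_iff_norm_tendsto_zero]
        exact squeeze_zero (fun k => norm_nonneg _) (fun k => (hn1 k).le)
          tendsto_one_div_add_atTop_nhds_zero_nat
      simpa using tendsto_const_nhds.add this
    exact hC.mem_of_tendsto (l1.prodMk_nhds l2) (Eventually.of_forall fun k => hit z hz (n k))
  have hcirc' : ∀ x, (x, z.2) ∈ C := by
    intro x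
    have := hcirc (x - z.1)
    rwa [add_sub_cancel] at this
  rw [eq_univ_iff_forall]
  rintro ⟨x, y⟩
  have hk : ∀ m : ℕ, ∃ n : ℕ, ‖(y - z.2) - (n * 1) • v.2‖ ≤ 1 / (((m + 1 : ℕ) : ℝ) + 1) :=
    fun m => near le_rfl (by omega) (hv _ (Nat.factorial_pos _)) _
  choose n hn using hk
  have hmem : ∀ m, (x, z.2 + n m • v.2) ∈ C := by
    intro m
    have := hit _ (hcirc' (x - psi a v z (n m))) (n m)
    have e : psi a v (x - psi a v z (n m), z.2) (n m) = psi a v z (n m) := rfl
    rw [e] at this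
    simpa using this
  have l2 : Tendsto (fun m => z.2 + n m • v.2) atTop (𝓝 y) := by
    rw [tendsto_iff_norm_sub_tendsto_zero]
    refine squeeze_zero (fun m => norm_nonneg _) (fun m => ?_)
      (tendsto_one_div_add_atTop_nhds_zero_nat.comp (tendsto_add_atTop_nat 1))
    rw [norm_sub_rev]
    have e : y - (z.2 + n m • v.2) = (y - z.2) - (n m * 1) • v.2 := by
      rw [mul_one]; abel
    rw [e]
    exact hn m
  exact hC.mem_of_tendsto (tendsto_const_nhds.prodMk_nhds l2) (Eventually.of_forall hmem)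

end Pool.Agent.H45.VT
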