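import Mathlib

/-!
# Local homeomorphisms with finite fibres of constant size
-/

open Set Filter Topology

namespace Pool.Agent.H45.VT

variable {M T : Type*} [TopologicalSpace M] [TopologicalSpace T] {D : M → T}

/-- Pairwise disjoint neighbourhoods of finitely many points of a fibre have a common image. -/
theorem common_image [T2Space M] (hD : IsOpenMap D) {y : T} {s : Set M} (hs : s.Finite)
    (hsy : ∀ x ∈ s, D x = y) {W : M → Set M} (hW : ∀ x ∈ s, x ∈ W x ∧ IsOpen (W x)) :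
    ∃ V : Set T, IsOpen V ∧ y ∈ V ∧ ∀ y' ∈ V, ∃ g : M → M, InjOn g s ∧
      ∀ x ∈ s, g x ∈ W x ∧ D (g x) = y' := by
  obtain ⟨U, hU, hdisj⟩ := hs.t2_separation
  refine ⟨⋂ x ∈ s, D '' (U x ∩ W x), ?_, ?_, ?_⟩
  · exact hs.isOpen_biInter fun x hx => hD _ ((hU x).2.inter (hW x hx).2)
  · exact mem_iInter₂.2 fun x hx => ⟨x, ⟨(hU x).1, (hW x hx).1⟩, hsy x hx⟩
  · intro y' hy'
    rw [mem_iInter₂] at hy'
    choose! g hg using hy'
    refine ⟨g, ?_, fun x hx => ⟨(hg x hx).1.2, (hg x hx).2⟩⟩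
    intro x hx x' hx' h
    by_contra hne
    have := hdisj hx hx' hne
    exact (Set.disjoint_left.1 this) (hg x hx).1.1 (by rw [h]; exact (hg x' hx').1.1)

/-- The set of points with at least `k` preimages is open. -/
theorem isOpen_card_ge [T2Space M] (hD : IsOpenMap D) (k : ℕ) :
    IsOpen {y : T | ∃ s : Finset M, s.card = k ∧ ∀ x ∈ s, D x = y} := by
  classical
  rw [isOpen_iff_forall_mem_open]
  rintro y ⟨s, hs, hsy⟩
  obtain ⟨V, hV, hy, h⟩ := common_image hD (y := y) (s := (s : Set M)) s.finite_toSet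
    (fun x hx => hsy x hx) (W := fun _ => univ) (fun x _ => ⟨mem_univ x, isOpen_univ⟩)
  refine ⟨V, ?_, hV, hy⟩
  intro y' hy'
  obtain ⟨g, hg, hg'⟩ := h y' hy'
  refine ⟨s.image g, ?_, ?_⟩
  · rw [Finset.card_image_of_injOn hg, hs]
  · intro x hx
    obtain ⟨x0, hx0, rfl⟩ := Finset.mem_image.1 hx
    exact (hg' x0 hx0).2

/-- An open map whose fibres all have exactly `d` points is closed. -/
theorem isClosedMap_of_card [T2Space M] (hD : IsOpenMap D) {d : ℕ}
    (hc : ∀ y, (D ⁻¹' {y}).encard = d) : IsClosedMap D := by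
  intro A hA
  rw [← isOpen_compl_iff, isOpen_iff_forall_mem_open]
  intro y hy
  have hfin : (D ⁻¹' {y}).Finite := by
    rw [← Set.encard_lt_top_iff, hc y]; exact ENat.natCast_lt_top d
  obtain ⟨V, hV, hyV, h⟩ := common_image hD (y := y) (s := D ⁻¹' {y}) hfin (fun x hx => hx)
    (W := fun _ => Aᶜ) (fun x hx => ⟨fun hxA => hy ⟨x, hxA, hx⟩, hA.isOpen_compl⟩)
  refine ⟨V, ?_, hV, hyV⟩
  rintro y' hy' ⟨a, haA, ha⟩
  obtain ⟨g, hg, hg'⟩ := h y' hy'
  have hfin' : (D ⁻¹' {y'}).Finite := by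
    rw [← Set.encard_lt_top_iff, hc y']; exact ENat.natCast_lt_top d
  have hsub : g '' (D ⁻¹' {y}) ⊆ D ⁻¹' {y'} := by
    rintro _ ⟨x, hx, rfl⟩
    exact (hg' x hx).2
  have heq : g '' (D ⁻¹' {y}) = D ⁻¹' {y'} := by
    apply hfin'.eq_of_subset_of_encard_le' hsub
    rw [hg.encard_image, hc, hc]
  have : a ∈ g '' (D ⁻¹' {y}) := by rw [heq]; exact ha
  obtain ⟨x, hx, rfl⟩ := this
  exact (hg' x hx).1 haA

/-- A local homeomorphism all of whose fibres over an open set have exactly `d` points is a covering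
over this set. -/
theorem covering_of_card [T2Space M] (hD : IsLocalHomeomorph D) {d : ℕ} {V : Set T} (hV : IsOpen V)
    (hc : ∀ y ∈ V, (D ⁻¹' {y}).encard = d) : IsCoveringMapOn D V := by
  have hpre : IsOpen (D ⁻¹' V) := hV.preimage hD.continuous
  have hloc : IsLocalHomeomorph (V.restrictPreimage D) := by
    refine IsLocalHomeomorph.of_comp (g := (Subtype.val : V → T)) ?_ ?_ ?_
    · exact hD.comp hpre.isOpenEmbedding_subtypeVal.isLocalHomeomorph
    · exact hV.isOpenEmbedding_subtypeVal.isLocalHomeomorph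
    · exact hD.continuous.restrictPreimage
  have hcard : ∀ y, ((V.restrictPreimage D) ⁻¹' {y}).encard = d := by
    intro y
    rw [← hc y.1 y.2, ← (Subtype.val_injective.injOn).encard_image
      (s := (V.restrictPreimage D) ⁻¹' {y})]
    congr 1
    ext x
    constructor
    · rintro ⟨z, hz, rfl⟩
      exact congrArg Subtype.val hz
    · intro hx
      have hx' : D x = y.1 := hx
      refine ⟨⟨x, by change D x ∈ V; rw [hx']; exact y.2⟩, Subtype.ext hx', rfl⟩
  have hcl := isClosedMap_of_card hloc.isOpenMap hcard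
  refine IsCoveringMapOn.of_isCoveringMap_restrictPreimage V hV hpre ?_
  rw [isCoveringMap_iff_isCoveringMapOn_univ]
  refine hcl.isCoveringMapOn_of_isLocalHomeomorphOn (fun y _ => ?_) ?_
  · rw [← Set.encard_lt_top_iff, hcard y]; exact ENat.natCast_lt_top d
  · rw [preimage_univ, ← isLocalHomeomorph_iff_isLocalHomeomorphOn_univ]
    exact hloc

end Pool.Agent.H45.VT
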