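import Pool.Agent.H45.VT.Two
import Pool.Agent.H45.VT.Cover

/-!
# Finite area, periods in the integer lattice and enough affine homeomorphisms
-/

open Set Filter Topology MeasureTheory

namespace Pool.Agent.H45.VT

variable {M : Type*}

/-- The points with at least `k` preimages. -/
def Uge (D : M → UnitAddCircle × UnitAddCircle) (k : ℕ) : Set (UnitAddCircle × UnitAddCircle) :=
  {y | ∃ s : Finset M, s.card = k ∧ ∀ x ∈ s, D x = y}

theorem mem_Uge {D : M → UnitAddCircle × UnitAddCircle} {k : ℕ} {y : UnitAddCircle × UnitAddCircle} :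
    y ∈ Uge D k ↔ (k : ℕ∞) ≤ (D ⁻¹' {y}).encard := by
  constructor
  · rintro ⟨s, hs, h⟩
    have h1 : (s : Set M) ⊆ D ⁻¹' {y} := fun x hx => h x hx
    have h2 := Set.encard_le_encard h1
    rwa [Set.encard_coe_eq_coe_finsetCard, hs] at h2
  · intro h
    obtain ⟨t, ht, hk⟩ := Set.exists_subset_encard_eq h
    have hfin : t.Finite := by
      rw [← Set.encard_lt_top_iff, hk]; exact ENat.natCast_lt_top k
    refine ⟨hfin.toFinset, ?_, fun x hx => ht (hfin.mem_toFinset.1 hx)⟩
    have h3 := hfin.encard_eq_coe_toFinset_card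
    rw [hk] at h3
    exact_mod_cast h3.symm

/-- Invariance of the number of preimages. -/
theorem encard_inv {D : M → UnitAddCircle × UnitAddCircle} (f : M ≃ M)
    {A : UnitAddCircle × UnitAddCircle → UnitAddCircle × UnitAddCircle} (hA : Function.Injective A)
    (hf : ∀ x, D (f x) = A (D x)) (y : UnitAddCircle × UnitAddCircle) :
    (D ⁻¹' {A y}).encard = (D ⁻¹' {y}).encard := by
  have e : D ⁻¹' {A y} = f '' (D ⁻¹' {y}) := by
    ext x
    constructor
    · intro hx
      refine ⟨f.symm x, ?_, by simp⟩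
      apply hA
      rw [← hf, f.apply_symm_apply]
      exact hx
    · rintro ⟨z, hz, rfl⟩
      change D (f z) = A y
      rw [hf, show D z = y from hz]
  rw [e, f.injective.injOn.encard_image]

theorem prob_circle : IsProbabilityMeasure (volume : Measure UnitAddCircle) :=
  ⟨by rw [AddCircle.measure_univ]; simp⟩

theorem null_singleton (y : UnitAddCircle × UnitAddCircle) :
    (volume : Measure (UnitAddCircle × UnitAddCircle)) {y} = 0 := by
  have := prob_circle
  have h : (volume : Measure UnitAddCircle) {y.1} = 0 := by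
    have := AddCircle.volume_closedBall (T := (1 : ℝ)) (x := y.1) 0
    rw [Metric.closedBall_zero] at this
    rw [this]
    simp
  rw [show ({y} : Set (UnitAddCircle × UnitAddCircle)) = {y.1} ×ˢ {y.2} by
    rw [Set.singleton_prod_singleton]]
  rw [Measure.volume_eq_prod, Measure.prod_prod, h, zero_mul]

theorem null_finite {s : Set (UnitAddCircle × UnitAddCircle)} (hs : s.Finite) :
    (volume : Measure (UnitAddCircle × UnitAddCircle)) s = 0 := by
  rw [← Set.biUnion_of_singleton s]
  exact (measure_biUnion_null_iff hs.countable).2 fun y _ => null_singleton y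

/-- The complements of the sets `Uge D k`. -/
theorem core [TopologicalSpace M] [T2Space M] {D : M → UnitAddCircle × UnitAddCircle}
    (hD : IsLocalHomeomorph D)
    {a b : ℕ} (ha : 1 ≤ a) (hb : 1 ≤ b) {v1 v2 : UnitAddCircle × UnitAddCircle}
    (f1 f2 : M ≃ M)
    (h1 : ∀ x, D (f1 x) = ((D x).1 + a • (D x).2, (D x).2) + v1)
    (h2 : ∀ x, D (f2 x) = ((D x).1, (D x).2 + b • (D x).1) + v2) :
    ∃ w : UnitAddCircle × UnitAddCircle, ∀ k, (Uge D k).Nonempty → (Uge D k)ᶜ.Finite ∧
      ∃ N : ℕ, 1 ≤ N ∧ ∀ z ∈ (Uge D k)ᶜ, N • (z - w) = 0 := by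
  obtain ⟨w, hw⟩ := affine_two ha hb v1 v2
  refine ⟨w, fun k hk => ?_⟩
  have hopen : ∀ k, IsOpen (Uge D k) := fun k => isOpen_card_ge hD.isOpenMap k
  have inv : ∀ (f : M ≃ M) (A : UnitAddCircle × UnitAddCircle → UnitAddCircle × UnitAddCircle),
      Function.Injective A → (∀ x, D (f x) = A (D x)) → ∀ y ∈ (Uge D k)ᶜ, A y ∈ (Uge D k)ᶜ := by
    intro f A hA hf y
    rw [mem_compl_iff, mem_compl_iff, mem_Uge, mem_Uge, encard_inv f hA hf]
    exact id
  rcases hw _ (hopen k).isClosed_compl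
    (inv f1 (fun y => (y.1 + a • y.2, y.2) + v1) (by
      intro x y hxy
      have e1 : ((x.1 + a • x.2, x.2) : UnitAddCircle × UnitAddCircle) = (y.1 + a • y.2, y.2) :=
        add_right_cancel hxy
      rw [Prod.mk.injEq] at e1
      obtain ⟨e3, e2⟩ := e1
      rw [e2] at e3
      exact Prod.ext (add_right_cancel e3) e2) h1)
    (inv f2 (fun y => (y.1, y.2 + b • y.1) + v2) (by
      intro x y hxy
      have e1 : ((x.1, x.2 + b • x.1) : UnitAddCircle × UnitAddCircle) = (y.1, y.2 + b • y.1) :=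
        add_right_cancel hxy
      rw [Prod.mk.injEq] at e1
      obtain ⟨e2, e3⟩ := e1
      rw [e2] at e3
      exact Prod.ext e2 (add_right_cancel e3)) h2) with h | h | h
  · rw [h]
    exact ⟨Set.finite_empty, 1, le_rfl, fun z hz => absurd hz (Set.notMem_empty z)⟩
  · obtain ⟨y, hy⟩ := hk
    exact absurd hy (by rw [← mem_compl_iff, h]; trivial)
  · exact h

/-- Finite area. -/
theorem finite_area [TopologicalSpace M] [T2Space M] [Nonempty M]
    {D : M → UnitAddCircle × UnitAddCircle} (hD : IsLocalHomeomorph D)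
    (harea : ∫⁻ y, ((D ⁻¹' {y}).encard : ENNReal) < ⊤)
    {w : UnitAddCircle × UnitAddCircle}
    (hfull : ∀ k, (Uge D k).Nonempty → (Uge D k)ᶜ.Finite ∧
      ∃ N : ℕ, 1 ≤ N ∧ ∀ z ∈ (Uge D k)ᶜ, N • (z - w) = 0) :
    ∃ (d : ℕ) (F : Set (UnitAddCircle × UnitAddCircle)), 1 ≤ d ∧ F.Finite ∧
      (∃ N : ℕ, 1 ≤ N ∧ ∀ y ∈ F, N • (y - w) = 0) ∧
      (∀ y, (D ⁻¹' {y}).encard ≤ d) ∧ (∀ y ∉ F, (D ⁻¹' {y}).encard = d) ∧
      (D ⁻¹' F).Finite ∧ IsCoveringMapOn D Fᶜ ∧ ∫⁻ y, ((D ⁻¹' {y}).encard : ENNReal) = d := by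
  classical
  have := prob_circle
  have : IsProbabilityMeasure (volume : Measure (UnitAddCircle × UnitAddCircle)) := by
    rw [Measure.volume_eq_prod]; infer_instance
  have hopen : ∀ k, IsOpen (Uge D k) := fun k => isOpen_card_ge hD.isOpenMap k
  -- some `Uge` is empty
  have hex : ∃ k, ¬ (Uge D k).Nonempty := by
    by_contra hcon
    push Not at hcon
    have hle : ∀ k : ℕ, (k : ENNReal) ≤ ∫⁻ y, ((D ⁻¹' {y}).encard : ENNReal) := by
      intro k
      have hnull : volume (Uge D k)ᶜ = 0 := null_finite (hfull k (hcon k)).1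
      have hone : volume (Uge D k) = 1 := by
        have := prob_compl_eq_zero_iff (μ := (volume : Measure (UnitAddCircle × UnitAddCircle)))
          (hopen k).measurableSet
        exact this.1 hnull
      calc (k : ENNReal) = ∫⁻ y in Uge D k, (k : ENNReal) := by
            rw [setLIntegral_const, hone, mul_one]
        _ ≤ ∫⁻ y in Uge D k, ((D ⁻¹' {y}).encard : ENNReal) := by
            refine setLIntegral_mono' (hopen k).measurableSet fun y hy => ?_
            have := mem_Uge.1 hy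
            exact_mod_cast this
        _ ≤ _ := setLIntegral_le_lintegral _ _
    obtain ⟨k, hk⟩ := ENNReal.exists_nat_gt harea.ne
    exact absurd (hle k) (not_le.2 hk)
  -- the largest nonempty one
  have hd0 : (Uge D 1).Nonempty := by
    obtain ⟨x⟩ := ‹Nonempty M›
    exact ⟨D x, {x}, by simp, by simp⟩
  set m := Nat.find hex with hm
  have hm1 : ¬ (Uge D m).Nonempty := Nat.find_spec hex
  have hmono : ∀ {i j : ℕ}, i ≤ j → Uge D j ⊆ Uge D i := by
    intro i j hij y hy
    rw [mem_Uge] at hy ⊢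
    exact le_trans (by exact_mod_cast hij) hy
  have hm2 : 2 ≤ m := by
    by_contra hlt
    exact hm1 (hd0.mono (hmono (by omega)))
  have hpred : (Uge D (m - 1)).Nonempty := by
    by_contra hcon
    exact Nat.find_min hex (show m - 1 < Nat.find hex by omega) hcon
  obtain ⟨hfin, N, hN, htor⟩ := hfull _ hpred
  have hle : ∀ y, (D ⁻¹' {y}).encard ≤ ((m - 1 : ℕ) : ℕ∞) := by
    intro y
    by_contra hcon
    rw [not_le] at hcon
    apply hm1
    refine ⟨y, mem_Uge.2 ?_⟩
    have := Order.add_one_le_of_lt hcon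
    refine le_trans (le_of_eq ?_) this
    have : m = (m - 1) + 1 := by omega
    exact_mod_cast this
  have heq : ∀ y ∉ (Uge D (m - 1))ᶜ, (D ⁻¹' {y}).encard = ((m - 1 : ℕ) : ℕ∞) := by
    intro y hy
    rw [notMem_compl_iff, mem_Uge] at hy
    exact le_antisymm (hle y) hy
  refine ⟨m - 1, (Uge D (m - 1))ᶜ, by omega, hfin, ⟨N, hN, htor⟩, hle, heq, ?_, ?_, ?_⟩
  · have : D ⁻¹' (Uge D (m - 1))ᶜ = ⋃ y ∈ (Uge D (m - 1))ᶜ, D ⁻¹' {y} := by
      ext x; simp
    rw [this]
    refine hfin.biUnion fun y _ => ?_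
    rw [← Set.encard_lt_top_iff]
    exact (hle y).trans_lt (ENat.natCast_lt_top _)
  · rw [compl_compl]
    exact covering_of_card hD (hopen _) fun y hy => heq y (by rwa [notMem_compl_iff])
  · have hae : ∀ᵐ y : UnitAddCircle × UnitAddCircle,
        ((D ⁻¹' {y}).encard : ENNReal) = ((m - 1 : ℕ) : ENNReal) := by
      have hnull : volume (Uge D (m - 1))ᶜ = 0 := null_finite hfin
      filter_upwards [measure_eq_zero_iff_ae_notMem.1 hnull] with y hy
      rw [heq y hy, ENat.toENNReal_coe]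
    rw [lintegral_congr_ae hae, lintegral_const, measure_univ, mul_one]

/-- Infinite area. -/
theorem infinite_area {D : M → UnitAddCircle × UnitAddCircle}
    (harea : ∫⁻ y, ((D ⁻¹' {y}).encard : ENNReal) = ⊤) {w : UnitAddCircle × UnitAddCircle}
    (hfull : ∀ k, (Uge D k).Nonempty → (Uge D k)ᶜ.Finite ∧
      ∃ N : ℕ, 1 ≤ N ∧ ∀ z ∈ (Uge D k)ᶜ, N • (z - w) = 0)
    {y : UnitAddCircle × UnitAddCircle} (hy : ∀ N : ℕ, 1 ≤ N → N • (y - w) ≠ 0) :
    (D ⁻¹' {y}).Infinite := by
  have := prob_circle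
  have : IsProbabilityMeasure (volume : Measure (UnitAddCircle × UnitAddCircle)) := by
    rw [Measure.volume_eq_prod]; infer_instance
  rw [← Set.encard_eq_top_iff, ENat.eq_top_iff_forall_ge]
  intro k
  have hne : (Uge D k).Nonempty := by
    by_contra hcon
    rw [Set.not_nonempty_iff_eq_empty, eq_empty_iff_forall_notMem] at hcon
    have h1 : ∫⁻ y, ((D ⁻¹' {y}).encard : ENNReal) ≤ (k : ENNReal) := by
      calc ∫⁻ y, ((D ⁻¹' {y}).encard : ENNReal)
          ≤ ∫⁻ _ : UnitAddCircle × UnitAddCircle, (k : ENNReal) := by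
            refine lintegral_mono fun z => ?_
            have h2 := hcon z
            rw [mem_Uge, not_le] at h2
            have h3 := ENat.toENNReal_le.2 h2.le
            rwa [ENat.toENNReal_coe] at h3
        _ = (k : ENNReal) := by rw [lintegral_const, measure_univ, mul_one]
    rw [harea, top_le_iff] at h1
    exact absurd h1 (ENNReal.natCast_ne_top k)
  obtain ⟨-, N, hN, h⟩ := hfull k hne
  by_contra hcon
  exact hy N hN (h y (by rw [mem_compl_iff, mem_Uge]; exact hcon))

end Pool.Agent.H45.VT
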