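import Mathlib

/-!
# Closed subsets of the torus which are invariant under two shears
-/

open Set Filter Topology

namespace Pool.Agent.H45.VT

/-- A lift of small absolute value. -/
theorem exists_lift (u : UnitAddCircle) : ∃ t : ℝ, (t : UnitAddCircle) = u ∧ |t| = ‖u‖ := by
  induction u using QuotientAddGroup.induction_on with
  | H x =>
    refine ⟨x - round x, ?_, ?_⟩
    · have h : ((round x : ℝ) : UnitAddCircle) = 0 := by
        rw [AddCircle.coe_eq_zero_iff]
        exact ⟨round x, by simp⟩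
      change ((x - (round x : ℝ) : ℝ) : UnitAddCircle) = (x : UnitAddCircle)
      rw [AddCircle.coe_sub, h, sub_zero]
    · exact (UnitAddCircle.norm_eq (x := x)).symm

theorem norm_coe_le (x : ℝ) : ‖(x : UnitAddCircle)‖ ≤ |x| := by
  rw [UnitAddCircle.norm_eq]
  have := round_le x 0
  simpa using this

/-- The multiples of a small nonzero element come close to every point. -/
theorem multiples_near {δ : UnitAddCircle} (hδ : δ ≠ 0) (x : UnitAddCircle) :
    ∃ n : ℕ, ‖x - n • δ‖ ≤ ‖δ‖ := by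
  obtain ⟨t, rfl, ht⟩ := exists_lift δ
  have ht0 : t ≠ 0 := by
    rintro rfl
    exact hδ (by simp)
  obtain ⟨s, hs0, hs1⟩ : ∃ s : ℝ, (s : UnitAddCircle) = x ∧ 0 ≤ s / t := by
    induction x using QuotientAddGroup.induction_on with
    | H x =>
      rcases lt_or_gt_of_ne ht0 with h | h
      · refine ⟨Int.fract x - 1, ?_, ?_⟩
        · have e : (Int.fract x - 1 : ℝ) = x - ((⌊x⌋ + 1 : ℤ) : ℝ) := by
            rw [Int.fract]; push_cast; ring
          have h0 : (((⌊x⌋ + 1 : ℤ) : ℝ) : UnitAddCircle) = 0 := by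
            rw [AddCircle.coe_eq_zero_iff]
            exact ⟨⌊x⌋ + 1, by simp⟩
          change ((Int.fract x - 1 : ℝ) : UnitAddCircle) = (x : UnitAddCircle)
          rw [e, AddCircle.coe_sub, h0, sub_zero]
        · exact div_nonneg_of_nonpos (by linarith [Int.fract_lt_one x]) h.le
      · refine ⟨Int.fract x, ?_, ?_⟩
        · have e : (Int.fract x : ℝ) = x - ((⌊x⌋ : ℤ) : ℝ) := by rw [Int.fract]
          have h0 : (((⌊x⌋ : ℤ) : ℝ) : UnitAddCircle) = 0 := by
            rw [AddCircle.coe_eq_zero_iff]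
            exact ⟨⌊x⌋, by simp⟩
          change ((Int.fract x : ℝ) : UnitAddCircle) = (x : UnitAddCircle)
          rw [e, AddCircle.coe_sub, h0, sub_zero]
        · exact div_nonneg (Int.fract_nonneg x) h.le
  subst hs0
  refine ⟨⌊s / t⌋₊, ?_⟩
  have h1 := Nat.floor_le hs1
  have h2 := Nat.lt_floor_add_one (s / t)
  have e : (s : UnitAddCircle) - ⌊s / t⌋₊ • (t : UnitAddCircle)
      = ((s - ⌊s / t⌋₊ * t : ℝ) : UnitAddCircle) := by
    rw [AddCircle.coe_sub, ← nsmul_eq_mul, AddCircle.coe_nsmul]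
  rw [e, ← ht]
  refine (norm_coe_le _).trans ?_
  have e2 : s - ⌊s / t⌋₊ * t = (s / t - ⌊s / t⌋₊) * t := by field_simp
  rw [e2, abs_mul, abs_of_nonneg (by linarith)]
  have : |t| ≥ 0 := abs_nonneg t
  nlinarith

/-- Multiples of a point of large order come close to every point. -/
theorem near {a m : ℕ} (ha : 1 ≤ a) (hm : 1 ≤ m) {y : UnitAddCircle}
    (hy : (a * m).factorial • y ≠ 0) (x : UnitAddCircle) :
    ∃ n : ℕ, ‖x - (n * a) • y‖ ≤ 1 / ((m : ℝ) + 1) := by
  obtain ⟨j, hj, hle⟩ := AddCircle.exists_norm_nsmul_le (T := (1 : ℝ)) (a • y) hm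
  rw [Set.mem_Icc] at hj
  have hne : j • (a • y) ≠ 0 := by
    intro h
    apply hy
    obtain ⟨c, hc⟩ := Nat.dvd_factorial (m := j * a) (n := a * m)
      (Nat.mul_pos (by omega) (by omega)) (by nlinarith [hj.2])
    rw [hc, mul_comm (j * a) c, mul_smul, mul_smul, h, smul_zero]
  obtain ⟨n, hn⟩ := multiples_near hne x
  refine ⟨n * j, ?_⟩
  have e : (n * j * a) • y = n • (j • (a • y)) := by
    rw [smul_smul, smul_smul, mul_assoc]
  rw [e]
  refine hn.trans (hle.trans (le_of_eq ?_))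
  push_cast
  ring

section

variable {C : Set (UnitAddCircle × UnitAddCircle)}

theorem iter_fst {a : ℕ} (h1 : ∀ z ∈ C, (z.1 + a • z.2, z.2) ∈ C) {z : UnitAddCircle × UnitAddCircle}
    (hz : z ∈ C) (n : ℕ) : (z.1 + (n * a) • z.2, z.2) ∈ C := by
  induction n with
  | zero => simpa using hz
  | succ n ih =>
    have := h1 _ ih
    rw [Nat.succ_mul, add_smul, ← add_assoc]
    exact this

theorem iter_snd {b : ℕ} (h2 : ∀ z ∈ C, (z.1, z.2 + b • z.1) ∈ C) {z : UnitAddCircle × UnitAddCircle}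
    (hz : z ∈ C) (n : ℕ) : (z.1, z.2 + (n * b) • z.1) ∈ C := by
  induction n with
  | zero => simpa using hz
  | succ n ih =>
    have := h2 _ ih
    rw [Nat.succ_mul, add_smul, ← add_assoc]
    exact this

/-- Points of unbounded order give a whole circle. -/
theorem circle_of_unbounded {a : ℕ} (ha : 1 ≤ a) (hC : IsClosed C)
    (h1 : ∀ z ∈ C, (z.1 + a • z.2, z.2) ∈ C)
    (hun : ∀ M : ℕ, ∃ z ∈ C, M.factorial • z.2 ≠ 0) :
    ∃ y : UnitAddCircle, ∀ x, (x, y) ∈ C := by
  choose z hz hz2 using fun m : ℕ => hun (a * (m + 1))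
  obtain ⟨y, -, φ, hφ, hlim⟩ := isCompact_univ.tendsto_subseq (x := fun m => (z m).2)
    (fun m => mem_univ _)
  refine ⟨y, fun x => ?_⟩
  have hk : ∀ m, ∃ n : ℕ, ‖(x - (z m).1) - (n * a) • (z m).2‖ ≤ 1 / (((m + 1 : ℕ) : ℝ) + 1) :=
    fun m => near ha (by omega) (hz2 m) _
  choose n hn using hk
  have hmem : ∀ m, ((z m).1 + (n m * a) • (z m).2, (z m).2) ∈ C := fun m => iter_fst h1 (hz m) _
  have hx : Tendsto (fun m => (z m).1 + (n m * a) • (z m).2) atTop (𝓝 x) := by
    rw [tendsto_iff_norm_sub_tendsto_zero]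
    refine squeeze_zero (fun m => norm_nonneg _) (fun m => ?_)
      (tendsto_one_div_add_atTop_nhds_zero_nat.comp (tendsto_add_atTop_nat 1))
    rw [norm_sub_rev]
    have e : x - ((z m).1 + (n m * a) • (z m).2) = (x - (z m).1) - (n m * a) • (z m).2 := by abel
    rw [e]
    exact hn m
  have := (hx.comp hφ.tendsto_atTop).prodMk_nhds hlim
  exact hC.mem_of_tendsto this (Eventually.of_forall fun k => hmem (φ k))

/-- A whole circle gives everything. -/
theorem univ_of_circle {b : ℕ} (hb : 1 ≤ b) (hC : IsClosed C)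
    (h2 : ∀ z ∈ C, (z.1, z.2 + b • z.1) ∈ C) {y : UnitAddCircle} (hy : ∀ x, (x, y) ∈ C) :
    C = univ := by
  rw [eq_univ_iff_forall]
  rintro ⟨x0, w⟩
  -- points of infinite order
  have key : ∀ x : UnitAddCircle, (∀ k : ℕ, 1 ≤ k → k • x ≠ 0) → (x, w) ∈ C := by
    intro x hx
    have hk : ∀ m : ℕ, ∃ n : ℕ, ‖(w - y) - (n * b) • x‖ ≤ 1 / (((m + 1 : ℕ) : ℝ) + 1) :=
      fun m => near hb (by omega) (hx _ (Nat.factorial_pos _)) _
    choose n hn using hk
    have hmem : ∀ m, (x, y + (n m * b) • x) ∈ C := fun m => iter_snd h2 (hy x) _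
    have hx : Tendsto (fun m => y + (n m * b) • x) atTop (𝓝 w) := by
      rw [tendsto_iff_norm_sub_tendsto_zero]
      refine squeeze_zero (fun m => norm_nonneg _) (fun m => ?_)
        (tendsto_one_div_add_atTop_nhds_zero_nat.comp (tendsto_add_atTop_nat 1))
      rw [norm_sub_rev]
      have e : w - (y + (n m * b) • x) = (w - y) - (n m * b) • x := by abel
      rw [e]
      exact hn m
    exact hC.mem_of_tendsto (tendsto_const_nhds.prodMk_nhds hx) (Eventually.of_forall hmem)
  have hcl : IsClosed {x : UnitAddCircle | (x, w) ∈ C} :=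
    hC.preimage (by fun_prop : Continuous fun x : UnitAddCircle => (x, w))
  have hd : Dense (((↑) : ℝ → UnitAddCircle) '' {r | Irrational r}) := by
    refine DenseRange.dense_image ?_ ?_ dense_irrational
    · exact (QuotientAddGroup.mk_surjective).denseRange
    · exact AddCircle.continuous_mk' 1
  have hsub : closure (((↑) : ℝ → UnitAddCircle) '' {r | Irrational r}) ⊆
      {x : UnitAddCircle | (x, w) ∈ C} := by
    refine hcl.closure_subset_iff.2 ?_
    rintro _ ⟨r, hr, rfl⟩
    refine key _ fun k hk h0 => ?_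
    rw [← AddCircle.coe_nsmul, AddCircle.coe_eq_zero_iff] at h0
    obtain ⟨n, hn⟩ := h0
    apply hr
    refine ⟨(n : ℚ) / k, ?_⟩
    have hk0 : (k : ℝ) ≠ 0 := by positivity
    push_cast
    rw [div_eq_iff hk0]
    simp only [zsmul_eq_mul, mul_one, nsmul_eq_mul] at hn
    rw [hn]; ring
  exact hsub (hd x0)

/-- A closed subset of the torus which is invariant under two shears is everything or consists of
torsion points of bounded order. -/
theorem shear_closed {a b : ℕ} (ha : 1 ≤ a) (hb : 1 ≤ b) (hC : IsClosed C)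
    (h1 : ∀ z ∈ C, (z.1 + a • z.2, z.2) ∈ C) (h2 : ∀ z ∈ C, (z.1, z.2 + b • z.1) ∈ C) :
    C = univ ∨ ∃ N : ℕ, 1 ≤ N ∧ ∀ z ∈ C, N • z = 0 := by
  by_cases hu : ∀ M : ℕ, ∃ z ∈ C, M.factorial • z.2 ≠ 0
  · left
    obtain ⟨y, hy⟩ := circle_of_unbounded ha hC h1 hu
    exact univ_of_circle hb hC h2 hy
  by_cases hv : ∀ M : ℕ, ∃ z ∈ C, M.factorial • z.1 ≠ 0
  · left
    have hC' : IsClosed (Prod.swap ⁻¹' C) := hC.preimage continuous_swap
    obtain ⟨y, hy⟩ := circle_of_unbounded (C := Prod.swap ⁻¹' C) hb hC'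
      (fun z hz => h2 _ hz) (fun M => by
        obtain ⟨z, hz, hne⟩ := hv M
        exact ⟨z.swap, by simpa using hz, by simpa using hne⟩)
    have := univ_of_circle (C := Prod.swap ⁻¹' C) ha hC' (fun z hz => h1 _ hz) hy
    rw [eq_univ_iff_forall] at this ⊢
    intro z
    simpa using this z.swap
  · right
    push Not at hu hv
    obtain ⟨M, hM⟩ := hu
    obtain ⟨M', hM'⟩ := hv
    refine ⟨M.factorial * M'.factorial, Nat.mul_pos M.factorial_pos M'.factorial_pos,
      fun z hz => ?_⟩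
    ext
    · change (M.factorial * M'.factorial) • z.1 = 0
      rw [mul_smul, hM' z hz, smul_zero]
    · change (M.factorial * M'.factorial) • z.2 = 0
      rw [mul_comm, mul_smul, hM z hz, smul_zero]

end

end Pool.Agent.H45.VT
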