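import Pool.Agent.H45.VT.Anzai

/-!
# Closed sets invariant under two affine maps whose linear parts are noncommuting shears
-/

open Set Filter Topology

namespace Pool.Agent.H45.VT

/-- The circle is divisible. -/
theorem exists_div {a : ℕ} (ha : 1 ≤ a) (u : UnitAddCircle) : ∃ t : UnitAddCircle, a • t = u := by
  induction u using QuotientAddGroup.induction_on with
  | H x =>
    have h : (a : ℝ) ≠ 0 := by positivity
    refine ⟨((x / a : ℝ) : UnitAddCircle), ?_⟩
    rw [← AddCircle.coe_nsmul]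
    change ((a • (x / a) : ℝ) : UnitAddCircle) = (x : UnitAddCircle)
    congr 1
    rw [nsmul_eq_mul]
    field_simp

/-- Some power of the map fixes the second coordinate. -/
theorem pow_fst' {C : Set (UnitAddCircle × UnitAddCircle)} {a N : ℕ} {v : UnitAddCircle × UnitAddCircle}
    (h1 : ∀ z ∈ C, (z.1 + a • z.2, z.2) + v ∈ C) (hN : N • v.2 = 0) :
    ∀ z ∈ C, (z.1 + (2 * N * a) • z.2 + (2 * N) • v.1, z.2) ∈ C := by
  intro z hz
  have h := iter_affine h1 hz (2 * N)
  have e4 : (2 * N) • v.2 = 0 := by rw [mul_smul, hN, smul_zero]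
  have e5 : (2 * N).choose 2 = N * (2 * N - 1) := by
    rw [Nat.choose_two_right]
    have : 2 * N * (2 * N - 1) = 2 * (N * (2 * N - 1)) := by ring
    rw [this, Nat.mul_div_cancel_left _ (by norm_num)]
  have e6 : (a * (2 * N).choose 2) • v.2 = 0 := by
    rw [e5, show a * (N * (2 * N - 1)) = (a * (2 * N - 1)) * N by ring, mul_smul, hN, smul_zero]
  rw [e4, e6, add_zero, add_zero] at h
  exact h

/-- The main statement on the torus. -/
theorem affine_two {a b : ℕ} (ha : 1 ≤ a) (hb : 1 ≤ b) (v1 v2 : UnitAddCircle × UnitAddCircle) :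
    ∃ w : UnitAddCircle × UnitAddCircle, ∀ C : Set (UnitAddCircle × UnitAddCircle), IsClosed C →
      (∀ z ∈ C, (z.1 + a • z.2, z.2) + v1 ∈ C) → (∀ z ∈ C, (z.1, z.2 + b • z.1) + v2 ∈ C) →
      C = ∅ ∨ C = univ ∨ (C.Finite ∧ ∃ N : ℕ, 1 ≤ N ∧ ∀ z ∈ C, N • (z - w) = 0) := by
  by_cases c1 : ∀ N : ℕ, 1 ≤ N → N • v1.2 ≠ 0
  · refine ⟨0, fun C hC h1 _ => ?_⟩
    rcases anzai ha c1 hC h1 with h | h
    · exact Or.inl h
    · exact Or.inr (Or.inl h)
  by_cases c2 : ∀ N : ℕ, 1 ≤ N → N • v2.1 ≠ 0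
  · refine ⟨0, fun C hC _ h2 => ?_⟩
    have hC' : IsClosed (Prod.swap ⁻¹' C) := hC.preimage continuous_swap
    rcases anzai (C := Prod.swap ⁻¹' C) (v := v2.swap) hb c2 hC' (fun z hz => h2 _ hz) with h | h
    · left
      rw [eq_empty_iff_forall_notMem] at h ⊢
      intro z hz
      exact h z.swap (by simpa using hz)
    · right; left
      rw [eq_univ_iff_forall] at h ⊢
      intro z
      simpa using h z.swap
  push Not at c1 c2
  obtain ⟨N1, hN1, e1⟩ := c1
  obtain ⟨N2, hN2, e2⟩ := c2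
  obtain ⟨w2, hw2⟩ := exists_div ha (-v1.1)
  obtain ⟨w1, hw1⟩ := exists_div hb (-v2.2)
  refine ⟨(w1, w2), fun C hC h1 h2 => ?_⟩
  have p1 := pow_fst' h1 e1
  have p2 : ∀ z ∈ C, (z.1, z.2 + (2 * N2 * b) • z.1 + (2 * N2) • v2.2) ∈ C := by
    have := pow_fst' (C := Prod.swap ⁻¹' C) (a := b) (v := v2.swap) (fun z hz => h2 z.swap hz) e2
    intro z hz
    exact this z.swap (by simpa using hz)
  have hC' : IsClosed {z : UnitAddCircle × UnitAddCircle | z + (w1, w2) ∈ C} :=
    hC.preimage (by fun_prop : Continuous fun z : UnitAddCircle × UnitAddCircle => z + (w1, w2))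
  have q1 : ∀ z ∈ {z : UnitAddCircle × UnitAddCircle | z + (w1, w2) ∈ C},
      (z.1 + (2 * N1 * a) • z.2, z.2) ∈ {z : UnitAddCircle × UnitAddCircle | z + (w1, w2) ∈ C} := by
    intro z hz
    have h3 := p1 _ hz
    change (z.1 + (2 * N1 * a) • z.2, z.2) + (w1, w2) ∈ C
    convert h3 using 1
    ext
    · change z.1 + (2 * N1 * a) • z.2 + w1 = z.1 + w1 + (2 * N1 * a) • (z.2 + w2) + (2 * N1) • v1.1
      rw [smul_add, mul_smul _ _ w2, hw2, smul_neg]
      abel
    · rfl
  have q2 : ∀ z ∈ {z : UnitAddCircle × UnitAddCircle | z + (w1, w2) ∈ C},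
      (z.1, z.2 + (2 * N2 * b) • z.1) ∈ {z : UnitAddCircle × UnitAddCircle | z + (w1, w2) ∈ C} := by
    intro z hz
    have h3 := p2 _ hz
    change (z.1, z.2 + (2 * N2 * b) • z.1) + (w1, w2) ∈ C
    convert h3 using 1
    ext
    · rfl
    · change z.2 + (2 * N2 * b) • z.1 + w2 = z.2 + w2 + (2 * N2 * b) • (z.1 + w1) + (2 * N2) • v2.2
      rw [smul_add, mul_smul _ _ w1, hw1, smul_neg]
      abel
  rcases shear_closed (Nat.mul_pos (by omega) (by omega)) (Nat.mul_pos (by omega) (by omega))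
    hC' q1 q2 with h | ⟨N, hN, h⟩
  · right; left
    rw [eq_univ_iff_forall] at h ⊢
    intro z
    have := h (z - (w1, w2))
    change z - (w1, w2) + (w1, w2) ∈ C at this
    rwa [sub_add_cancel] at this
  · right; right
    have h' : ∀ z ∈ C, N • (z - (w1, w2)) = 0 := fun z hz => h (z - (w1, w2)) (by
      change z - (w1, w2) + (w1, w2) ∈ C
      rwa [sub_add_cancel])
    refine ⟨?_, N, hN, h'⟩
    refine ((torsion_finite_prod hN).image (fun z => z + (w1, w2))).subset ?_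
    intro z hz
    exact ⟨z - (w1, w2), h' z hz, sub_add_cancel z (w1, w2)⟩

end Pool.Agent.H45.VT
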